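import Pool.Agent.H58.MN.Div

/-!
# MN Alg: algebra structure, group algebra, restriction of the support, series supported in a subgroup
-/

set_option autoImplicit false
set_option linter.unusedSectionVars false

open Set Pointwise Function

namespace Pool.Agent.H58.MN.Ser

section ring

variable {K G : Type*} [Ring K] [Group G] [LinearOrder G] [MulLeftMono G] [MulRightMono G]

noncomputable instance : Module K (Ser K G) where
  smul c f := ⟨c • f.1, f.wo.mono (support_const_smul_subset c f.1)⟩
  one_smul f := ext fun x => one_mul (f x)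
  mul_smul a b f := ext fun x => mul_assoc a b (f x)
  smul_zero a := ext fun _ => mul_zero a
  smul_add a f g := ext fun x => mul_add a (f x) (g x)
  add_smul a b f := ext fun x => add_mul a b (f x)
  zero_smul f := ext fun x => zero_mul (f x)

@[simp] theorem smul_apply (c : K) (f : Ser K G) (x : G) : (c • f) x = c * f x := rfl

theorem smul_eq (c : K) (f : Ser K G) : c • f = single 1 c * f := by
  ext x
  rw [single_mul_apply, smul_apply]
  simp

/-- the group elements -/
noncomputable def of : G →* Ser K G where
  toFun x := single x 1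
  map_one' := rfl
  map_mul' x y := by rw [single_mul_single, one_mul]

theorem of_apply (x : G) : (of x : Ser K G) = single x 1 := rfl

theorem of_mul_apply (x : G) (f : Ser K G) (y : G) : (of x * f : Ser K G) y = f (x⁻¹ * y) := by
  rw [of_apply, single_mul_apply, one_mul]

theorem mul_of_apply (x : G) (f : Ser K G) (y : G) : (f * of x : Ser K G) y = f (y * x⁻¹) := by
  rw [of_apply, mul_single_apply, mul_one]

open Classical in
/-- restriction of the support -/
noncomputable def restr (S : Set G) : Ser K G →ₗ[K] Ser K G where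
  toFun f := ⟨fun x => if x ∈ S then f x else 0, f.wo.mono fun x hx h => hx (by simp [h])⟩
  map_add' f g := by
    ext x
    show (if x ∈ S then (f + g) x else 0) = (if x ∈ S then f x else 0) + (if x ∈ S then g x else 0)
    split_ifs
    · rfl
    · rw [add_zero]
  map_smul' c f := by
    ext x
    show (if x ∈ S then (c • f) x else 0) = c * (if x ∈ S then f x else 0)
    split_ifs
    · rfl
    · rw [mul_zero]

theorem restr_of_mem {S : Set G} {x : G} (h : x ∈ S) (f : Ser K G) : restr S f x = f x := if_pos h

theorem restr_of_notMem {S : Set G} {x : G} (h : x ∉ S) (f : Ser K G) : restr S f x = 0 := if_neg h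

theorem support_restr (S : Set G) (f : Ser K G) : support (restr S f) = support f ∩ S := by
  ext x
  by_cases h : x ∈ S
  · rw [mem_support, restr_of_mem h]
    exact ⟨fun h1 => ⟨h1, h⟩, fun h1 => h1.1⟩
  · rw [mem_support, restr_of_notMem h]
    exact ⟨fun h1 => absurd rfl h1, fun h1 => absurd h1.2 h⟩

theorem restr_eq_self {S : Set G} {f : Ser K G} (h : support f ⊆ S) : restr S f = f := by
  ext x
  by_cases hx : x ∈ S
  · exact restr_of_mem hx f
  · rw [restr_of_notMem hx]
    by_contra h1
    exact hx (h (Ne.symm h1))

/-- `f` is supported in the coset over `a`: the components of `f * g` are the products of `f` with the components of `g`. -/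
theorem restr_mul_left {Q : Type*} [Group Q] (φ : G →* Q) {a : Q} {f : Ser K G} (hf : ∀ x, f x ≠ 0 → φ x = a) (g : Ser K G) (b : Q) :
    restr (φ ⁻¹' {a * b}) (f * g) = f * restr (φ ⁻¹' {b}) g := by
  ext x
  by_cases hx : x ∈ φ ⁻¹' {a * b}
  · rw [restr_of_mem hx, mul_apply, mul_apply]
    refine finsum_congr fun y => ?_
    by_cases hy : f y = 0
    · rw [hy, zero_mul, zero_mul]
    · rw [restr_of_mem]
      rw [mem_preimage, mem_singleton_iff] at hx ⊢
      rw [map_mul, map_inv, hx, hf y hy]
      group
  · rw [restr_of_notMem hx, mul_apply, finsum_congr, finsum_zero]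
    intro y
    by_cases hy : f y = 0
    · rw [hy, zero_mul]
    · rw [restr_of_notMem, mul_zero]
      intro h
      apply hx
      rw [mem_preimage, mem_singleton_iff] at h ⊢
      rw [← h, ← hf y hy, ← map_mul]
      group

theorem restr_mul_right {Q : Type*} [Group Q] (φ : G →* Q) {b : Q} {g : Ser K G} (hg : ∀ x, g x ≠ 0 → φ x = b) (f : Ser K G) (a : Q) :
    restr (φ ⁻¹' {a * b}) (f * g) = restr (φ ⁻¹' {a}) f * g := by
  ext x
  by_cases hx : x ∈ φ ⁻¹' {a * b}
  · rw [restr_of_mem hx, mul_apply, mul_apply]
    refine finsum_congr fun y => ?_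
    by_cases hy : g (y⁻¹ * x) = 0
    · rw [hy, mul_zero, mul_zero]
    · rw [restr_of_mem]
      have h1 := hg _ hy
      rw [mem_preimage, mem_singleton_iff] at hx ⊢
      rw [map_mul, map_inv, hx] at h1
      calc φ y = φ y * b * b⁻¹ := by group
        _ = φ y * ((φ y)⁻¹ * (a * b)) * b⁻¹ := by rw [h1]
        _ = a := by group
  · rw [restr_of_notMem hx, mul_apply, finsum_congr, finsum_zero]
    intro y
    by_cases hy : g (y⁻¹ * x) = 0
    · rw [hy, mul_zero]
    · rw [restr_of_notMem, zero_mul]
      intro h
      apply hx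
      have h1 := hg _ hy
      rw [mem_preimage, mem_singleton_iff] at h ⊢
      rw [← h, ← h1, ← map_mul]
      group

/-- the components determine the series -/
theorem ext_restr {Q : Type*} [Group Q] (φ : G →* Q) {f g : Ser K G} (h : ∀ a : Q, restr (φ ⁻¹' {a}) f = restr (φ ⁻¹' {a}) g) : f = g := by
  ext x
  have h1 : restr (φ ⁻¹' {φ x}) f x = restr (φ ⁻¹' {φ x}) g x := by rw [h (φ x)]
  rwa [restr_of_mem (by simp), restr_of_mem (by simp)] at h1

/-- the series supported in a subgroup -/
noncomputable def sub (K : Type*) [Ring K] (N : Subgroup G) : Subring (Ser K G) where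
  carrier := {f | ∀ x, f x ≠ 0 → x ∈ N}
  zero_mem' := fun x h => absurd rfl h
  one_mem' := by
    intro x hx
    by_cases h : x = 1
    · rw [h]
      exact N.one_mem
    · exact absurd (single_ne h _) hx
  add_mem' := by
    intro f g hf hg x hx
    by_cases h : f x = 0
    · refine hg x fun h1 => hx ?_
      rw [add_apply, h, h1, add_zero]
    · exact hf x h
  neg_mem' := by
    intro f hf x hx
    exact hf x fun h => hx (by rw [neg_apply, h, neg_zero])
  mul_mem' := by
    intro f g hf hg x hx
    obtain ⟨a, ha, b, hb, rfl⟩ := support_mul f g hx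
    exact N.mul_mem (hf a ha) (hg b hb)

theorem mem_sub {N : Subgroup G} {f : Ser K G} : f ∈ sub K N ↔ ∀ x, f x ≠ 0 → x ∈ N := Iff.rfl

end ring

section alg

variable {K G : Type*} [CommRing K] [Group G] [LinearOrder G] [MulLeftMono G] [MulRightMono G]

theorem smul_mul (c : K) (f g : Ser K G) : (c • f) * g = c • (f * g) := by
  rw [smul_eq, smul_eq, mul_assoc]

theorem mul_smul' (c : K) (f g : Ser K G) : f * (c • g) = c • (f * g) := by
  ext x
  rw [mul_apply, smul_apply, mul_apply, mul_finsum' _ _ (fin_supp f g x)]
  refine finsum_congr fun a => ?_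
  rw [smul_apply]
  ring

noncomputable instance : Algebra K (Ser K G) := Algebra.ofModule smul_mul fun c f g => mul_smul' c f g

/-- the group algebra -/
noncomputable def ofAlg : MonoidAlgebra K G →ₐ[K] Ser K G := MonoidAlgebra.lift K (Ser K G) G of

theorem ofAlg_single (x : G) (c : K) : (ofAlg (MonoidAlgebra.single x c) : Ser K G) = single x c := by
  rw [ofAlg, MonoidAlgebra.lift_single, of_apply]
  ext y
  rw [smul_apply]
  by_cases h : y = x
  · subst h
    rw [single_self, single_self, mul_one]
  · rw [single_ne h, single_ne h, mul_zero]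

theorem ofAlg_apply (f : MonoidAlgebra K G) (x : G) : (ofAlg f : Ser K G) x = f.coeff x := by
  induction f using MonoidAlgebra.induction_linear with
  | zero =>
    rw [map_zero]
    rfl
  | add f g hf hg =>
    rw [map_add, add_apply, hf, hg, MonoidAlgebra.coeff_add, Finsupp.add_apply]
  | single y c =>
    rw [ofAlg_single]
    by_cases h : x = y
    · subst h
      rw [single_self, MonoidAlgebra.coeff_single, Finsupp.single_apply, if_pos rfl]
    · rw [single_ne h, MonoidAlgebra.coeff_single, Finsupp.single_apply, if_neg (Ne.symm h)]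

theorem ofAlg_injective : Injective (ofAlg : MonoidAlgebra K G →ₐ[K] Ser K G) := by
  intro f g h
  ext x
  rw [← ofAlg_apply, ← ofAlg_apply, h]

end alg

section field

variable {K G : Type*} [DivisionRing K] [Group G] [LinearOrder G] [MulLeftMono G] [MulRightMono G]

theorem lead_mem_sub {N : Subgroup G} {f : Ser K G} (h : f ∈ sub K N) (hf : f ≠ 0) : f.lead hf ∈ N := h _ (f.lead_mem hf)

theorem inv_mem_sub {N : Subgroup G} {f : Ser K G} (h : f ∈ sub K N) : f⁻¹ ∈ sub K N := by
  by_cases hf : f = 0
  · rw [hf, inv_zero]
    exact (sub K N).zero_mem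
  · intro x hx
    rw [inv_eq f hf] at hx
    obtain ⟨y, hy, rfl⟩ := support_invFun f hf hx
    refine N.mul_mem ?_ (N.inv_mem (lead_mem_sub h hf))
    have h1 : Submonoid.closure (support (f.tail hf)) ≤ N.toSubmonoid := by
      rw [Submonoid.closure_le]
      intro z hz
      have h2 := h _ (mem_support_tail.1 hz).2
      have h3 := N.mul_mem (N.inv_mem (lead_mem_sub h hf)) h2
      rwa [inv_mul_cancel_left] at h3
    exact h1 hy

end field

end Pool.Agent.H58.MN.Ser
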