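import Pool.Agent.H58.MN.Ser

/-!
# MN Div: the series with coefficients in a division ring form a division ring
-/

set_option autoImplicit false
set_option linter.unusedSectionVars false

open Set Pointwise Function

namespace Pool.Agent.H58.MN.Ser

section ring

variable {K G : Type*} [Ring K] [Group G] [LinearOrder G] [MulLeftMono G] [MulRightMono G]

theorem exists_word (ξ : Ser K G) (k : ℕ) (x : G) (h : (ξ ^ k) x ≠ 0) :
    ∃ l : List G, (∀ y ∈ l, y ∈ support ξ) ∧ l.prod = x ∧ l.length = k := by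
  induction k generalizing x with
  | zero =>
    rw [pow_zero, one_def] at h
    have h1 : x = 1 := by
      by_contra h2
      exact h (single_ne h2 _)
    exact ⟨[], by simp, by simp [h1], rfl⟩
  | succ k ih =>
    rw [pow_succ'] at h
    obtain ⟨a, ha, b, hb, rfl⟩ := support_mul ξ (ξ ^ k) h
    obtain ⟨l, h1, h2, h3⟩ := ih b hb
    refine ⟨a :: l, ?_, by simp [h2], by simp [h3]⟩
    intro y hy
    rcases List.mem_cons.1 hy with h4 | h4
    · rw [h4]
      exact ha
    · exact h1 y h4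

theorem mem_closure_of_pow {ξ : Ser K G} {k : ℕ} {x : G} (h : (ξ ^ k) x ≠ 0) : x ∈ Submonoid.closure (support ξ) := by
  obtain ⟨l, h1, h2, -⟩ := exists_word ξ k x h
  rw [← h2]
  exact Submonoid.list_prod_mem _ fun y hy => Submonoid.subset_closure (h1 y hy)

theorem fin_pow {ξ : Ser K G} (hpos : ∀ x ∈ support ξ, 1 < x) (x : G) : {k : ℕ | (ξ ^ k) x ≠ 0}.Finite := by
  refine ((finite_words hpos ξ.wo x).image List.length).subset ?_
  intro k hk
  obtain ⟨l, h1, h2, h3⟩ := exists_word ξ k x hk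
  exact ⟨l, ⟨h1, h2⟩, h3⟩

theorem fin_pow_pair {ξ : Ser K G} (hpos : ∀ x ∈ support ξ, 1 < x) (x : G) :
    {p : G × ℕ | ξ p.1 ≠ 0 ∧ (ξ ^ p.2) (p.1⁻¹ * x) ≠ 0}.Finite := by
  refine ((finite_words hpos ξ.wo x).image (fun l : List G => (l.headD 1, l.length - 1))).subset ?_
  rintro ⟨a, k⟩ ⟨ha, hk⟩
  obtain ⟨l, h1, h2, h3⟩ := exists_word ξ k _ hk
  refine ⟨a :: l, ⟨?_, ?_⟩, ?_⟩
  · intro y hy
    rcases List.mem_cons.1 hy with h4 | h4
    · rw [h4]
      exact ha
    · exact h1 y h4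
  · rw [List.prod_cons, h2]
    simp
  · simp [h3]

/-- the geometric series -/
noncomputable def geom (ξ : Ser K G) (hpos : ∀ x ∈ support ξ, 1 < x) : Ser K G :=
  ⟨fun x => ∑ᶠ k : ℕ, (ξ ^ k) x, (isPWO_closure (fun x hx => (hpos x hx).le) ξ.wo).mono (by
    intro x hx
    have : ∃ k : ℕ, (ξ ^ k) x ≠ 0 := by
      by_contra h
      push Not at h
      exact hx (by
        show ∑ᶠ k : ℕ, (ξ ^ k) x = 0
        rw [finsum_congr h, finsum_zero])
    obtain ⟨k, hk⟩ := this
    exact mem_closure_of_pow hk)⟩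

theorem geom_apply (ξ : Ser K G) (hpos : ∀ x ∈ support ξ, 1 < x) (x : G) : geom ξ hpos x = ∑ᶠ k : ℕ, (ξ ^ k) x := rfl

theorem support_geom (ξ : Ser K G) (hpos : ∀ x ∈ support ξ, 1 < x) : support (geom ξ hpos) ⊆ Submonoid.closure (support ξ) := by
  intro x hx
  have : ∃ k : ℕ, (ξ ^ k) x ≠ 0 := by
    by_contra h
    push Not at h
    exact hx (by rw [geom_apply, finsum_congr h, finsum_zero])
  obtain ⟨k, hk⟩ := this
  exact mem_closure_of_pow hk

theorem mul_geom (ξ : Ser K G) (hpos : ∀ x ∈ support ξ, 1 < x) : ξ * geom ξ hpos = geom ξ hpos - 1 := by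
  ext x
  have h0 : HasFiniteSupport fun p : G × ℕ => ξ p.1 * (ξ ^ p.2) (p.1⁻¹ * x) :=
    (fin_pow_pair hpos x).subset fun p hp => ⟨fun h => hp (by simp [h]), fun h => hp (by simp [h])⟩
  have h0' : HasFiniteSupport fun p : ℕ × G => ξ p.2 * (ξ ^ p.1) (p.2⁻¹ * x) := by
    refine (h0.image Prod.swap).subset ?_
    rintro ⟨a, b⟩ hab
    exact ⟨(b, a), hab, rfl⟩
  have h1 : (ξ * geom ξ hpos) x = ∑ᶠ k : ℕ, (ξ ^ (k + 1)) x := by
    rw [mul_apply]
    have h2 : ∀ a, ξ a * geom ξ hpos (a⁻¹ * x) = ∑ᶠ k : ℕ, ξ a * (ξ ^ k) (a⁻¹ * x) := by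
      intro a
      rw [geom_apply, mul_finsum' _ _ (fin_pow hpos _)]
    have h3 : ∀ k : ℕ, (ξ ^ (k + 1)) x = ∑ᶠ a, ξ a * (ξ ^ k) (a⁻¹ * x) := by
      intro k
      rw [pow_succ', mul_apply]
    rw [finsum_congr h2, finsum_congr h3, ← finsum_curry (fun p : G × ℕ => ξ p.1 * (ξ ^ p.2) (p.1⁻¹ * x)) h0,
      ← finsum_curry (fun p : ℕ × G => ξ p.2 * (ξ ^ p.1) (p.2⁻¹ * x)) h0', ← finsum_comp_equiv (Equiv.prodComm G ℕ)]
    rfl
  have h4 : geom ξ hpos x = (1 : Ser K G) x + ∑ᶠ k : ℕ, (ξ ^ (k + 1)) x := by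
    obtain ⟨N, hN⟩ := (fin_pow hpos x).bddAbove
    rw [geom_apply, finsum_eq_sum_of_support_subset (s := Finset.range (N + 1)), finsum_eq_sum_of_support_subset (s := Finset.range N),
      Finset.sum_range_succ', pow_zero, add_comm]
    · intro k hk
      have := hN (show k + 1 ∈ {k : ℕ | (ξ ^ k) x ≠ 0} from hk)
      rw [Finset.coe_range, mem_Iio]
      omega
    · intro k hk
      have := hN (show k ∈ {k : ℕ | (ξ ^ k) x ≠ 0} from hk)
      rw [Finset.coe_range, mem_Iio]
      omega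
  rw [sub_apply, h1, h4]
  abel

theorem one_sub_mul_geom (ξ : Ser K G) (hpos : ∀ x ∈ support ξ, 1 < x) : (1 - ξ) * geom ξ hpos = 1 := by
  rw [sub_mul, one_mul, mul_geom]
  abel

end ring

section field

variable {K G : Type*} [DivisionRing K] [Group G] [LinearOrder G] [MulLeftMono G] [MulRightMono G]

/-- the least element of the support -/
noncomputable def lead (f : Ser K G) (hf : f ≠ 0) : G := f.wo.isWF.min (ne_zero_iff.1 hf)

theorem lead_mem (f : Ser K G) (hf : f ≠ 0) : f (f.lead hf) ≠ 0 := f.wo.isWF.min_mem (ne_zero_iff.1 hf)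

theorem lead_le (f : Ser K G) (hf : f ≠ 0) {x : G} (hx : f x ≠ 0) : f.lead hf ≤ x := f.wo.isWF.min_le (ne_zero_iff.1 hf) hx

/-- `f = c g (1 - tail)` -/
noncomputable def tail (f : Ser K G) (hf : f ≠ 0) : Ser K G := 1 - single (f.lead hf)⁻¹ (f (f.lead hf))⁻¹ * f

theorem tail_apply (f : Ser K G) (hf : f ≠ 0) (x : G) : f.tail hf x = (1 : Ser K G) x - (f (f.lead hf))⁻¹ * f (f.lead hf * x) := by
  rw [tail, sub_apply, single_mul_apply, inv_inv]

theorem mem_support_tail {f : Ser K G} {hf : f ≠ 0} {x : G} : x ∈ support (f.tail hf) ↔ x ≠ 1 ∧ f (f.lead hf * x) ≠ 0 := by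
  rw [mem_support, tail_apply, one_def]
  by_cases h : x = 1
  · subst h
    rw [single_self, mul_one, inv_mul_cancel₀ (f.lead_mem hf), sub_self]
    simp
  · rw [single_ne h, zero_sub, neg_ne_zero]
    constructor
    · intro h1
      exact ⟨h, fun h2 => h1 (by rw [h2, mul_zero])⟩
    · intro h1
      exact mul_ne_zero (inv_ne_zero (f.lead_mem hf)) h1.2

theorem tail_pos (f : Ser K G) (hf : f ≠ 0) : ∀ x ∈ support (f.tail hf), 1 < x := by
  intro x hx
  rw [mem_support_tail] at hx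
  refine lt_of_le_of_ne ?_ (Ne.symm hx.1)
  exact (le_mul_iff_one_le_right' _).1 (f.lead_le hf hx.2)

theorem eq_single_mul (f : Ser K G) (hf : f ≠ 0) : f = single (f.lead hf) (f (f.lead hf)) * (1 - f.tail hf) := by
  rw [tail, sub_sub_cancel, ← mul_assoc, single_mul_single, mul_inv_cancel, mul_inv_cancel₀ (f.lead_mem hf), ← one_def, one_mul]

/-- the inverse of a series -/
noncomputable def invFun (f : Ser K G) (hf : f ≠ 0) : Ser K G :=
  geom (f.tail hf) (f.tail_pos hf) * single (f.lead hf)⁻¹ (f (f.lead hf))⁻¹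

theorem mul_invFun (f : Ser K G) (hf : f ≠ 0) : f * invFun f hf = 1 := by
  rw [invFun]
  nth_rewrite 1 [eq_single_mul f hf]
  rw [mul_assoc, ← mul_assoc (1 - f.tail hf), one_sub_mul_geom, one_mul, single_mul_single, mul_inv_cancel,
    mul_inv_cancel₀ (f.lead_mem hf)]
  rfl

theorem support_invFun (f : Ser K G) (hf : f ≠ 0) :
    support (invFun f hf) ⊆ (fun y => y * (f.lead hf)⁻¹) '' (Submonoid.closure (support (f.tail hf)) : Set G) := by
  intro x hx
  rw [mem_support, invFun, mul_single_apply] at hx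
  refine ⟨x * f.lead hf, ?_, by simp⟩
  apply support_geom
  intro h
  exact hx (by rw [inv_inv, h, zero_mul])

instance : Nontrivial (Ser K G) := ⟨⟨0, 1, by
  intro h
  have h1 : (0 : Ser K G) 1 = (1 : Ser K G) 1 := by rw [← h]
  rw [one_def, single_self] at h1
  exact zero_ne_one h1⟩⟩

theorem invFun_ne_zero (f : Ser K G) (hf : f ≠ 0) : invFun f hf ≠ 0 := by
  intro h
  have := mul_invFun f hf
  rw [h, mul_zero] at this
  exact zero_ne_one this

theorem invFun_mul (f : Ser K G) (hf : f ≠ 0) : invFun f hf * f = 1 := by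
  have h1 := mul_invFun (invFun f hf) (invFun_ne_zero f hf)
  have h2 : f = invFun (invFun f hf) (invFun_ne_zero f hf) := by
    calc f = f * (invFun f hf * invFun (invFun f hf) (invFun_ne_zero f hf)) := by rw [h1, mul_one]
      _ = _ := by rw [← mul_assoc, mul_invFun, one_mul]
  nth_rewrite 2 [h2]
  exact h1

open Classical in
noncomputable instance : DivisionRing (Ser K G) where
  inv f := if h : f = 0 then 0 else invFun f h
  mul_inv_cancel f hf := by
    show f * (if h : f = 0 then 0 else invFun f h) = 1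
    rw [dif_neg hf]
    exact mul_invFun f hf
  inv_zero := by
    show (if h : (0 : Ser K G) = 0 then 0 else invFun 0 h) = 0
    rw [dif_pos rfl]
  nnqsmul := _
  qsmul := _

theorem inv_eq (f : Ser K G) (hf : f ≠ 0) : f⁻¹ = invFun f hf := by
  have h1 : f * f⁻¹ = f * invFun f hf := by rw [mul_inv_cancel₀ hf, mul_invFun]
  exact mul_left_cancel₀ hf h1

end field

end Pool.Agent.H58.MN.Ser
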