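import Mathlib

/-!
# MN Ord: well ordered subsets of a bi-ordered group

`G` is a group with a linear order which is invariant under multiplication from both sides.
-/

set_option autoImplicit false
set_option linter.unusedSectionVars false

open Set Pointwise

namespace Pool.Agent.H58.MN

variable {G : Type*} [Group G] [LinearOrder G] [MulLeftMono G] [MulRightMono G] {s t : Set G}

/-- products of well ordered sets -/
theorem isPWO_mul (hs : s.IsPWO) (ht : t.IsPWO) : (s * t).IsPWO := by
  rw [← image_mul_prod]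
  exact (hs.prod ht).image_of_monotone fun a b h => mul_le_mul' h.1 h.2

/-- finitely many factorisations -/
theorem finite_anti (hs : s.IsPWO) (ht : t.IsPWO) (x : G) :
    {p : G × G | p.1 ∈ s ∧ p.2 ∈ t ∧ p.1 * p.2 = x}.Finite := by
  by_contra! h
  set A := {p : G × G | p.1 ∈ s ∧ p.2 ∈ t ∧ p.1 * p.2 = x} with hA
  have h0 : A.Infinite := h
  have h1 : A.PartiallyWellOrderedOn (Prod.fst ⁻¹'o (· ≤ ·)) :=
    fun f ↦ hs fun n ↦ ⟨_, (f n).2.1⟩
  have h2 : A.PartiallyWellOrderedOn (Prod.snd ⁻¹'o (· ≤ ·)) :=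
    fun f ↦ ht fun n ↦ ⟨_, (f n).2.2.1⟩
  obtain ⟨g, hg⟩ := h1.exists_monotone_subseq fun n ↦ (h0.natEmbedding _ n).2
  obtain ⟨m, n, mn, h2'⟩ := h2 fun n ↦ h0.natEmbedding _ (g n)
  have h3 : (h0.natEmbedding _ (g m) : G × G).1 ≤ (h0.natEmbedding _ (g n) : G × G).1 := hg _ _ mn.le
  have h4 : (h0.natEmbedding _ (g m) : G × G).2 ≤ (h0.natEmbedding _ (g n) : G × G).2 := h2'
  have h5 := (h0.natEmbedding _ (g m)).2.2.2
  have h6 := (h0.natEmbedding _ (g n)).2.2.2
  have h7 : (h0.natEmbedding _ (g m) : G × G).1 = (h0.natEmbedding _ (g n) : G × G).1 := by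
    refine h3.eq_of_not_lt fun hlt => ?_
    exact absurd (h5.trans h6.symm) (mul_lt_mul_of_lt_of_le hlt h4).ne
  have h8 : (h0.natEmbedding _ (g m) : G × G).2 = (h0.natEmbedding _ (g n) : G × G).2 := by
    have := h5.trans h6.symm
    rw [h7] at this
    exact mul_left_cancel this
  exact mn.ne (g.injective <| (h0.natEmbedding _).injective (Subtype.ext (Prod.ext h7 h8)))

/-- Neumann's lemma (1): the monoid generated by a well ordered set of elements `≥ 1` is well ordered. -/
theorem isPWO_closure (hpos : ∀ x ∈ s, 1 ≤ x) (h : s.IsPWO) : (Submonoid.closure s : Set G).IsPWO := by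
  rw [Submonoid.closure_eq_image_prod]
  refine (h.partiallyWellOrderedOn_sublistForall₂ (· ≤ ·)).image_of_monotone_on ?_
  exact fun l1 _ l2 hl2 h12 => h12.prod_le_prod' fun x hx => hpos x <| hl2 x hx

theorem one_le_prod {l : List G} (hpos : ∀ x ∈ l, 1 < x) : 1 ≤ l.prod := by
  induction l with
  | nil => simp
  | cons a l ih =>
    rw [List.prod_cons]
    exact one_le_mul (hpos a (by simp)).le (ih fun x hx => hpos x (List.mem_cons_of_mem _ hx))

theorem one_lt_prod {l : List G} (hpos : ∀ x ∈ l, 1 < x) (hl : l ≠ []) : 1 < l.prod := by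
  rcases l with _ | ⟨a, l⟩
  · exact absurd rfl hl
  · rw [List.prod_cons]
    exact one_lt_mul_of_lt_of_le' (hpos a (by simp)) (one_le_prod fun x hx => hpos x (List.mem_cons_of_mem _ hx))

theorem prod_lt_of_sublist {l1 l2 : List G} (h : List.SublistForall₂ (· ≤ ·) l1 l2) (hpos : ∀ x ∈ l2, 1 < x) :
    l1 = l2 ∨ l1.prod < l2.prod := by
  induction h with
  | @nil l =>
    rcases l with _ | ⟨a, l⟩
    · exact Or.inl rfl
    · right
      rw [List.prod_nil]
      exact one_lt_prod hpos (by simp)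
  | @cons a1 a2 l1 l2 h1 h2 ih =>
    rcases ih fun x hx => hpos x (List.mem_cons_of_mem _ hx) with h3 | h3
    · subst h3
      rcases h1.lt_or_eq with h4 | h4
      · right
        rw [List.prod_cons, List.prod_cons]
        exact mul_lt_mul_left h4 _
      · left
        rw [h4]
    · right
      rw [List.prod_cons, List.prod_cons]
      exact mul_lt_mul_of_le_of_lt h1 h3
  | @cons_right a l1 l2 h1 ih =>
    right
    rw [List.prod_cons]
    have h2 : 1 < a := hpos a (by simp)
    rcases ih fun x hx => hpos x (List.mem_cons_of_mem _ hx) with h3 | h3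
    · subst h3
      exact lt_mul_of_one_lt_left' _ h2
    · exact h3.trans (lt_mul_of_one_lt_left' _ h2)

/-- Neumann's lemma (2): finitely many words for each product. -/
theorem finite_words (hpos : ∀ x ∈ s, 1 < x) (h : s.IsPWO) (x : G) : {l : List G | (∀ y ∈ l, y ∈ s) ∧ l.prod = x}.Finite := by
  by_contra! h0
  have h0' : {l : List G | (∀ y ∈ l, y ∈ s) ∧ l.prod = x}.Infinite := h0
  obtain ⟨m, n, mn, h1⟩ := (h.partiallyWellOrderedOn_sublistForall₂ (· ≤ ·)) fun n =>
    ⟨(h0'.natEmbedding _ n : List G), (h0'.natEmbedding _ n).2.1⟩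
  rcases prod_lt_of_sublist h1 fun y hy => hpos y ((h0'.natEmbedding _ n).2.1 y hy) with h2 | h2
  · exact mn.ne ((h0'.natEmbedding _).injective (Subtype.ext h2))
  · rw [(h0'.natEmbedding _ m).2.2, (h0'.natEmbedding _ n).2.2] at h2
    exact lt_irrefl _ h2

omit [MulRightMono G] in
theorem isPWO_smul (hs : s.IsPWO) (x : G) : ((fun y => x * y) '' s).IsPWO :=
  hs.image_of_monotone fun _ _ h => mul_le_mul_right h _

omit [MulLeftMono G] in
theorem isPWO_mul_right (hs : s.IsPWO) (x : G) : ((fun y => y * x) '' s).IsPWO :=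
  hs.image_of_monotone fun _ _ h => mul_le_mul_left h _

end Pool.Agent.H58.MN
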