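import Pool.Agent.H58.MN.Alg

/-!
# MN Push: push forward of series along a homomorphism of bi-ordered groups

`Good π S`: the image of `S` is well ordered, and the fibres of `π` on `S` are finite.
-/

set_option autoImplicit false
set_option linter.unusedSectionVars false

open Set Pointwise Function

namespace Pool.Agent.H58.MN

section good

variable {G G' : Type*} [Group G] [Group G'] [LinearOrder G'] [MulLeftMono G'] [MulRightMono G'] (π : G →* G')

/-- `π` is finite to one on `S`, with well ordered image. -/
def Good (S : Set G) : Prop := (π '' S).IsPWO ∧ ∀ y, {x ∈ S | π x = y}.Finite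

variable {π} {S T : Set G}

theorem Good.mono (h : Good π T) (hST : S ⊆ T) : Good π S :=
  ⟨h.1.mono (image_mono hST), fun y => (h.2 y).subset fun _ hx => ⟨hST hx.1, hx.2⟩⟩

theorem good_finite (h : S.Finite) : Good π S := ⟨(h.image π).isPWO, fun _ => h.subset fun _ hx => hx.1⟩

theorem Good.union (hS : Good π S) (hT : Good π T) : Good π (S ∪ T) := by
  refine ⟨?_, fun y => ?_⟩
  · rw [image_union]
    exact IsPWO.union hS.1 hT.1
  · refine ((hS.2 y).union (hT.2 y)).subset ?_
    rintro x ⟨hx | hx, h⟩
    · exact Or.inl ⟨hx, h⟩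
    · exact Or.inr ⟨hx, h⟩

theorem Good.mul (hS : Good π S) (hT : Good π T) : Good π (S * T) := by
  refine ⟨?_, fun y => ?_⟩
  · rw [image_mul]
    exact isPWO_mul hS.1 hT.1
  · have h1 := finite_anti hS.1 hT.1 y
    refine (h1.biUnion fun p _ => ((hS.2 p.1).prod (hT.2 p.2)).image fun q : G × G => q.1 * q.2).subset ?_
    rintro x ⟨⟨a, ha, b, hb, rfl⟩, hx⟩
    rw [mem_iUnion₂]
    exact ⟨(π a, π b), ⟨⟨a, ha, rfl⟩, ⟨b, hb, rfl⟩, by rw [← map_mul]; exact hx⟩, (a, b), ⟨⟨ha, rfl⟩, ⟨hb, rfl⟩⟩, rfl⟩

theorem Good.mul_left (hS : Good π S) (g : G) : Good π ((fun y => g * y) '' S) := by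
  have := (good_finite (π := π) (finite_singleton g)).mul hS
  rwa [singleton_mul] at this

theorem Good.mul_right (hS : Good π S) (g : G) : Good π ((fun y => y * g) '' S) := by
  have := hS.mul (good_finite (π := π) (finite_singleton g))
  rwa [mul_singleton] at this

theorem finite_lists {α : Type*} {P : α → Prop} {β : Type*} {f : α → β} (h : ∀ y, {x | P x ∧ f x = y}.Finite) (l : List β) :
    {m : List α | (∀ x ∈ m, P x) ∧ m.map f = l}.Finite := by
  induction l with
  | nil =>
    refine (finite_singleton []).subset ?_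
    rintro m ⟨-, hm⟩
    exact List.map_eq_nil_iff.1 hm
  | cons b l ih =>
    refine ((h b).prod ih |>.image fun p : α × List α => p.1 :: p.2).subset ?_
    rintro m ⟨h1, h2⟩
    rcases m with _ | ⟨a, m⟩
    · simp at h2
    · rw [List.map_cons, List.cons.injEq] at h2
      exact ⟨(a, m), ⟨⟨h1 a (by simp), h2.1⟩, fun x hx => h1 x (List.mem_cons_of_mem _ hx), h2.2⟩, rfl⟩

/-- the monoid generated by a good set of elements with images `> 1` -/
theorem Good.closure (hS : Good π S) (hpos : ∀ x ∈ S, 1 < π x) : Good π (Submonoid.closure S : Set G) := by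
  have hpos' : ∀ y ∈ π '' S, 1 < y := by
    rintro _ ⟨x, hx, rfl⟩
    exact hpos x hx
  refine ⟨?_, fun y => ?_⟩
  · have h1 : π '' (Submonoid.closure S : Set G) = (Submonoid.closure (π '' S) : Set G') := by
      rw [← MonoidHom.map_mclosure]
      rfl
    rw [h1]
    exact isPWO_closure (fun x hx => (hpos' x hx).le) hS.1
  · have h1 := finite_words hpos' hS.1 y
    refine ((h1.biUnion fun l _ => finite_lists (P := fun x => x ∈ S) (f := π) hS.2 l).image List.prod).subset ?_
    rintro x ⟨hx, hy⟩
    obtain ⟨m, h2, h3⟩ := Submonoid.exists_list_of_mem_closure hx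
    refine ⟨m, ?_, h3⟩
    rw [mem_iUnion₂]
    refine ⟨m.map π, ⟨?_, ?_⟩, h2, rfl⟩
    · intro z hz
      obtain ⟨a, ha, rfl⟩ := List.mem_map.1 hz
      exact ⟨a, h2 a ha, rfl⟩
    · rw [← map_list_prod, h3, hy]

/-- elements of `S` with image `1` do not matter modulo a normal subgroup: the monoid generated by `φ '' S` is generated by the
nontrivial elements of `φ '' S` -/
theorem closure_sdiff_one {M : Type*} [Monoid M] (S : Set M) : Submonoid.closure (S \ {1}) = Submonoid.closure S := by
  refine le_antisymm (Submonoid.closure_mono sdiff_subset) ?_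
  rw [Submonoid.closure_le]
  intro x hx
  by_cases h : x = 1
  · rw [h]
    exact Submonoid.one_mem _
  · exact Submonoid.subset_closure ⟨hx, h⟩

end good

namespace Ser

section push

variable {K G G' : Type*} [Ring K] [Group G] [LinearOrder G] [MulLeftMono G] [MulRightMono G]
  [Group G'] [LinearOrder G'] [MulLeftMono G'] [MulRightMono G'] (π : G →* G')

/-- the series with good support -/
noncomputable def goodSub (K : Type*) [Ring K] : Subring (Ser K G) where
  carrier := {f | Good π (support f)}
  zero_mem' := (good_finite finite_empty).mono fun x h => absurd rfl h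
  one_mem' := (good_finite (finite_singleton 1)).mono fun x h => by
    by_contra h1
    exact h (single_ne h1 _)
  add_mem' := by
    intro f g hf hg
    exact (Good.union hf hg).mono (support_add _ _)
  neg_mem' := by
    intro f hf
    refine Good.mono hf fun x hx => ?_
    intro h
    exact hx (by rw [neg_apply, h, neg_zero])
  mul_mem' := by
    intro f g hf hg
    exact (Good.mul hf hg).mono (support_mul f g)

theorem mem_goodSub {f : Ser K G} : f ∈ goodSub π K ↔ Good π (support f) := Iff.rfl

/-- the push forward, as a function -/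
noncomputable def pushFun (f : Ser K G) (y : G') : K := ∑ᶠ x, if π x = y then f x else 0

theorem fin_push {f : Ser K G} (hf : Good π (support f)) (y : G') : HasFiniteSupport fun x => if π x = y then f x else 0 := by
  refine (hf.2 y).subset fun x hx => ?_
  by_cases h : π x = y
  · exact ⟨fun h1 => hx (by simp [h1]), h⟩
  · exact absurd (if_neg h) hx

theorem support_pushFun (f : Ser K G) : support (pushFun π f) ⊆ π '' support f := by
  intro y hy
  obtain ⟨x, hx⟩ : ∃ x, (if π x = y then f x else 0) ≠ 0 := by
    by_contra h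
    push Not at h
    exact hy (by rw [pushFun, finsum_congr h, finsum_zero])
  by_cases h : π x = y
  · exact ⟨x, fun h1 => hx (by simp [h1]), h⟩
  · exact absurd (if_neg h) hx

theorem finsum_swap {α β M : Type*} [AddCommMonoid M] (F : α → β → M) (h : {p : α × β | F p.1 p.2 ≠ 0}.Finite) :
    ∑ᶠ a, ∑ᶠ b, F a b = ∑ᶠ b, ∑ᶠ a, F a b := by
  have h1 : HasFiniteSupport fun p : α × β => F p.1 p.2 := h
  have h2 : HasFiniteSupport fun p : β × α => F p.2 p.1 := by
    refine (h1.image Prod.swap).subset ?_
    rintro ⟨a, b⟩ hab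
    exact ⟨(b, a), hab, rfl⟩
  rw [← finsum_curry (fun p : α × β => F p.1 p.2) h1, ← finsum_curry (fun p : β × α => F p.2 p.1) h2,
    ← finsum_comp_equiv (Equiv.prodComm α β)]
  rfl

theorem fin_pair {f g : Ser K G} (hf : Good π (support f)) (hg : Good π (support g)) (y : G') :
    {p : G × G | f p.1 ≠ 0 ∧ g p.2 ≠ 0 ∧ π p.1 * π p.2 = y}.Finite := by
  refine ((finite_anti hf.1 hg.1 y).biUnion fun p _ => (hf.2 p.1).prod (hg.2 p.2)).subset ?_
  rintro ⟨a, c⟩ ⟨h1, h2, h3⟩
  rw [mem_iUnion₂]
  exact ⟨(π a, π c), ⟨⟨a, h1, rfl⟩, ⟨c, h2, rfl⟩, h3⟩, ⟨h1, rfl⟩, ⟨h2, rfl⟩⟩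

theorem pushFun_mul {f g : Ser K G} (hf : Good π (support f)) (hg : Good π (support g)) (y : G') :
    pushFun π (f * g) y = ∑ᶠ b, pushFun π f b * pushFun π g (b⁻¹ * y) := by
  set F : G → G → K := fun a c => if π a * π c = y then f a * g c else 0 with hF
  have hFin : {p : G × G | F p.1 p.2 ≠ 0}.Finite := by
    refine (fin_pair π hf hg y).subset ?_
    rintro ⟨a, c⟩ h
    by_cases h1 : π a * π c = y
    · exact ⟨fun h2 => h (by simp [hF, h2]), fun h2 => h (by simp [hF, h2]), h1⟩
    · exact absurd (if_neg h1) h
  have h1 : pushFun π (f * g) y = ∑ᶠ a, ∑ᶠ c, F a c := by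
    have h2 : ∀ a, ∑ᶠ c, F a c = ∑ᶠ x, F a (a⁻¹ * x) := fun a => (finsum_comp_equiv (Equiv.mulLeft a⁻¹)).symm
    rw [finsum_congr h2, finsum_swap (fun a x => F a (a⁻¹ * x)), pushFun]
    · refine finsum_congr fun x => ?_
      by_cases hx : π x = y
      · rw [if_pos hx, mul_apply]
        refine finsum_congr fun a => ?_
        simp only [hF]
        rw [if_pos]
        rw [← map_mul, mul_inv_cancel_left, hx]
      · rw [if_neg hx, finsum_congr, finsum_zero]
        intro a
        simp only [hF]
        rw [if_neg]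
        rwa [← map_mul, mul_inv_cancel_left]
    · refine (hFin.image fun p : G × G => (p.1, p.1 * p.2)).subset ?_
      rintro ⟨a, x⟩ h
      exact ⟨(a, a⁻¹ * x), h, by simp⟩
  rw [h1]
  have hu : {a : G | ∑ᶠ c, F a c ≠ 0}.Finite := by
    refine (hFin.image Prod.fst).subset ?_
    intro a ha
    obtain ⟨c, hc⟩ : ∃ c, F a c ≠ 0 := by
      by_contra h
      push Not at h
      exact ha (by rw [finsum_congr h, finsum_zero])
    exact ⟨(a, c), hc, rfl⟩
  have h3 : ∀ b, pushFun π f b * pushFun π g (b⁻¹ * y) = ∑ᶠ a, if π a = b then ∑ᶠ c, F a c else 0 := by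
    intro b
    rw [pushFun, finsum_mul' _ _ (fin_push π hf b)]
    refine finsum_congr fun a => ?_
    by_cases ha : π a = b
    · rw [if_pos ha, if_pos ha, pushFun, mul_finsum' _ _ (fin_push π hg _)]
      refine finsum_congr fun c => ?_
      simp only [hF, ← ha]
      by_cases hc : π c = (π a)⁻¹ * y
      · rw [if_pos hc, if_pos (by rw [hc, mul_inv_cancel_left])]
      · rw [if_neg hc, mul_zero, if_neg]
        intro h
        exact hc (by rw [← h, inv_mul_cancel_left])
    · rw [if_neg ha, if_neg ha, zero_mul]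
  rw [finsum_congr h3, ← finsum_swap (fun a b => if π a = b then ∑ᶠ c, F a c else 0)]
  · refine finsum_congr fun a => ?_
    rw [finsum_eq_single _ (π a) (fun b hb => if_neg (Ne.symm hb)), if_pos rfl]
  · refine (hu.image fun a => (a, π a)).subset ?_
    rintro ⟨a, b⟩ h
    by_cases hab : π a = b
    · subst hab
      exact ⟨a, fun h1 => h (by simp [h1]), rfl⟩
    · exact absurd (if_neg hab) h

/-- the push forward of the series with good support -/
noncomputable def push : goodSub π K →+* Ser K G' where
  toFun f := ⟨pushFun π f.1, f.2.1.mono (support_pushFun π f.1)⟩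
  map_one' := by
    ext y
    show pushFun π 1 y = (1 : Ser K G') y
    rw [pushFun, finsum_eq_single _ 1]
    · by_cases h : y = 1
      · subst h
        rw [map_one, if_pos rfl, one_def, one_def, single_self, single_self]
      · rw [map_one, if_neg (Ne.symm h), one_def, single_ne h]
    · intro x hx
      rw [one_def, single_ne hx, ite_self]
  map_mul' f g := by
    ext y
    exact pushFun_mul π f.2 g.2 y
  map_zero' := by
    ext y
    show pushFun π 0 y = 0
    rw [pushFun, finsum_congr (g := fun _ => 0), finsum_zero]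
    intro x
    rw [zero_apply, ite_self]
  map_add' f g := by
    ext y
    show pushFun π (f.1 + g.1) y = pushFun π f.1 y + pushFun π g.1 y
    rw [pushFun, pushFun, pushFun, ← finsum_add_distrib (fin_push π f.2 y) (fin_push π g.2 y)]
    refine finsum_congr fun x => ?_
    split_ifs
    · rfl
    · rw [add_zero]

theorem push_apply (f : goodSub π K) (y : G') : push π f y = ∑ᶠ x, if π x = y then f.1 x else 0 := rfl

theorem support_push (f : goodSub π K) : support (push π f) ⊆ π '' support f.1 := support_pushFun π f.1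

theorem single_mem_goodSub (x : G) (c : K) : single x c ∈ goodSub π K :=
  (good_finite (finite_singleton x)).mono fun y h => by
    by_contra h1
    exact h (single_ne h1 _)

theorem push_single (x : G) (c : K) : push π ⟨single x c, single_mem_goodSub π x c⟩ = single (π x) c := by
  ext y
  rw [push_apply, finsum_eq_single _ x]
  · by_cases h : y = π x
    · subst h
      rw [if_pos rfl, single_self]
      exact single_self x c
    · rw [if_neg (Ne.symm h), single_ne h]
  · intro z hz
    show (if π z = y then single x c z else 0) = 0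
    rw [single_ne hz, ite_self]

theorem finite_mem_goodSub {f : Ser K G} (h : (support f).Finite) : f ∈ goodSub π K := good_finite h

end push

section field

variable {K G G' : Type*} [DivisionRing K] [Group G] [LinearOrder G] [MulLeftMono G] [MulRightMono G]
  [Group G'] [LinearOrder G'] [MulLeftMono G'] [MulRightMono G'] (π : G →* G')

/-- the coefficient of the push forward at the image of the least element -/
theorem push_lead (f : goodSub π K) (hf : f.1 ≠ 0) (hpos : ∀ x ∈ support (f.1.tail hf), 1 < π x) :
    push π f (π (f.1.lead hf)) = f.1 (f.1.lead hf) := by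
  rw [push_apply, finsum_eq_single _ (f.1.lead hf), if_pos rfl]
  intro x hx
  by_cases h : f.1 x = 0
  · rw [h, ite_self]
  · rw [if_neg]
    intro h1
    have h2 : (f.1.lead hf)⁻¹ * x ∈ support (f.1.tail hf) := by
      rw [mem_support_tail]
      refine ⟨?_, by rwa [mul_inv_cancel_left]⟩
      rw [ne_eq, inv_mul_eq_one]
      exact Ne.symm hx
    have h3 := hpos _ h2
    rw [map_mul, map_inv, h1, inv_mul_cancel] at h3
    exact lt_irrefl _ h3

theorem push_ne_zero (f : goodSub π K) (hf : f.1 ≠ 0) (hpos : ∀ x ∈ support (f.1.tail hf), 1 < π x) : push π f ≠ 0 := by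
  intro h
  have h1 := push_lead π f hf hpos
  rw [h, zero_apply] at h1
  exact f.1.lead_mem hf h1.symm

theorem support_tail_subset (f : Ser K G) (hf : f ≠ 0) : support (f.tail hf) ⊆ (fun y => (f.lead hf)⁻¹ * y) '' support f := by
  intro x hx
  exact ⟨f.lead hf * x, (mem_support_tail.1 hx).2, by simp⟩

/-- the support of the inverse is good: version for a homomorphism `φ` to a group `Q`, and a homomorphism `π` from `Q` to an ordered group -/
theorem good_inv {Q : Type*} [Group Q] (φ : G →* Q) (π : Q →* G') (f : Ser K G) (hf : f ≠ 0) (hg : Good π (φ '' support f))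
    (hpos : ∀ x ∈ support (f.tail hf), φ x ≠ 1 → 1 < π (φ x)) : Good π (φ '' support (f⁻¹ : Ser K G)) := by
  have h1 : Good π (φ '' support (f.tail hf)) := by
    refine (hg.mul_left (φ (f.lead hf)⁻¹)).mono ?_
    rintro _ ⟨x, hx, rfl⟩
    obtain ⟨y, hy, rfl⟩ := support_tail_subset f hf hx
    exact ⟨φ y, ⟨y, hy, rfl⟩, by simp⟩
  have h2 : Good π (Submonoid.closure (φ '' support (f.tail hf)) : Set Q) := by
    rw [← closure_sdiff_one]
    refine (h1.mono sdiff_subset).closure ?_
    rintro _ ⟨⟨x, hx, rfl⟩, h3⟩
    exact hpos x hx h3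
  refine (h2.mul_right (φ (f.lead hf)⁻¹)).mono ?_
  rintro _ ⟨x, hx, rfl⟩
  rw [inv_eq f hf] at hx
  obtain ⟨y, hy, rfl⟩ := support_invFun f hf hx
  refine ⟨φ y, ?_, by simp⟩
  have h4 : φ y ∈ Submonoid.map φ (Submonoid.closure (support (f.tail hf))) := ⟨y, hy, rfl⟩
  rw [MonoidHom.map_mclosure] at h4
  exact h4

end field

end Ser

end Pool.Agent.H58.MN
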