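import Pool.Agent.H58.MN.Ord

/-!
# MN Ser: the ring of series with well ordered support on a bi-ordered group
-/

set_option autoImplicit false
set_option linter.unusedSectionVars false

open Set Pointwise Function

namespace Pool.Agent.H58.MN

variable (K G : Type*) [Ring K] [Group G] [LinearOrder G] [MulLeftMono G] [MulRightMono G]

/-- the functions on `G` with well ordered support -/
def serSub : AddSubgroup (G → K) where
  carrier := {f | (support f).IsPWO}
  zero_mem' := by
    show (support (0 : G → K)).IsPWO
    rw [support_zero]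
    exact isPWO_empty
  add_mem' := by
    intro f g hf hg
    exact (IsPWO.union hf hg).mono (support_add f g)
  neg_mem' := by
    intro f hf
    show (support (-f)).IsPWO
    rw [support_neg]
    exact hf

/-- the series with well ordered support -/
def Ser : Type _ := serSub K G

namespace Ser

variable {K G}

noncomputable instance : AddCommGroup (Ser K G) := inferInstanceAs (AddCommGroup (serSub K G))

instance : FunLike (Ser K G) G K where
  coe f := f.1
  coe_injective := fun _ _ h => Subtype.ext h

@[ext] theorem ext {f g : Ser K G} (h : ∀ x, f x = g x) : f = g := Subtype.ext (funext h)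

/-- the series of a function with well ordered support -/
def mk (f : G → K) (h : (support f).IsPWO) : Ser K G := ⟨f, h⟩

@[simp] theorem mk_apply (f : G → K) (h : (support f).IsPWO) (x : G) : mk f h x = f x := rfl

theorem wo (f : Ser K G) : (support f).IsPWO := f.2

@[simp] theorem zero_apply (x : G) : (0 : Ser K G) x = 0 := rfl
@[simp] theorem add_apply (f g : Ser K G) (x : G) : (f + g) x = f x + g x := rfl
@[simp] theorem neg_apply (f : Ser K G) (x : G) : (-f) x = -f x := rfl
@[simp] theorem sub_apply (f g : Ser K G) (x : G) : (f - g) x = f x - g x := rfl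

theorem ne_zero_iff {f : Ser K G} : f ≠ 0 ↔ (support f).Nonempty := by
  constructor
  · intro h
    by_contra h1
    rw [not_nonempty_iff_eq_empty, support_eq_empty_iff] at h1
    exact h (ext fun x => congrFun h1 x)
  · rintro ⟨x, hx⟩ h
    exact hx (by rw [h]; rfl)

theorem fin_left (f g : Ser K G) (x : G) : {a : G | f a ≠ 0 ∧ g (a⁻¹ * x) ≠ 0}.Finite := by
  refine ((finite_anti f.wo g.wo x).image Prod.fst).subset ?_
  intro a ha
  exact ⟨(a, a⁻¹ * x), ⟨ha.1, ha.2, by simp⟩, rfl⟩

theorem fin_supp (f g : Ser K G) (x : G) : HasFiniteSupport fun a => f a * g (a⁻¹ * x) := by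
  refine (fin_left f g x).subset ?_
  intro a ha
  exact ⟨fun h => ha (by simp [h]), fun h => ha (by simp [h])⟩

/-- the product of two series, as a function -/
noncomputable def mulFun (f g : Ser K G) (x : G) : K := ∑ᶠ a, f a * g (a⁻¹ * x)

theorem support_mulFun (f g : Ser K G) : support (mulFun f g) ⊆ support f * support g := by
  intro x hx
  obtain ⟨a, ha⟩ : ∃ a, f a * g (a⁻¹ * x) ≠ 0 := by
    by_contra h
    push Not at h
    exact hx (by rw [mulFun, finsum_congr h, finsum_zero])
  exact ⟨a, fun h => ha (by simp [h]), a⁻¹ * x, fun h => ha (by simp [h]), by simp⟩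

noncomputable instance : Mul (Ser K G) where
  mul f g := ⟨mulFun f g, (isPWO_mul f.wo g.wo).mono (support_mulFun f g)⟩

theorem mul_apply (f g : Ser K G) (x : G) : (f * g) x = ∑ᶠ a, f a * g (a⁻¹ * x) := rfl

theorem support_mul (f g : Ser K G) : support (f * g : Ser K G) ⊆ support f * support g := support_mulFun f g

open Classical in
/-- the series `c x` -/
noncomputable def single (x : G) (c : K) : Ser K G :=
  ⟨Pi.single x c, (isPWO_singleton x).mono (Pi.support_single_subset)⟩

theorem single_self (x : G) (c : K) : single x c x = c := Pi.single_eq_same _ _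

theorem single_ne {x y : G} (h : y ≠ x) (c : K) : single x c y = 0 := Pi.single_eq_of_ne h _

theorem single_mul_apply (x : G) (c : K) (f : Ser K G) (y : G) : (single x c * f) y = c * f (x⁻¹ * y) := by
  rw [mul_apply, finsum_eq_single _ x, single_self]
  intro a ha
  rw [single_ne ha, zero_mul]

theorem mul_single_apply (x : G) (c : K) (f : Ser K G) (y : G) : (f * single x c) y = f (y * x⁻¹) * c := by
  rw [mul_apply, finsum_eq_single _ (y * x⁻¹)]
  · rw [show (y * x⁻¹)⁻¹ * y = x by group, single_self]
  · intro a ha
    rw [single_ne, mul_zero]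
    intro h
    apply ha
    rw [← h]
    group

noncomputable instance : One (Ser K G) where
  one := single 1 1

theorem one_def : (1 : Ser K G) = single 1 1 := rfl

theorem fin_supp_pair (f g h : Ser K G) (x : G) : HasFiniteSupport fun p : G × G => f p.1 * g (p.1⁻¹ * p.2) * h (p.2⁻¹ * x) := by
  have h1 : {b : G | b ∈ support f * support g ∧ b⁻¹ * x ∈ support h}.Finite := by
    refine ((finite_anti (isPWO_mul f.wo g.wo) h.wo x).image Prod.fst).subset ?_
    intro b hb
    exact ⟨(b, b⁻¹ * x), ⟨hb.1, hb.2, by simp⟩, rfl⟩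
  refine (h1.biUnion (t := fun b => (fun a => (a, b)) '' {a : G | f a ≠ 0 ∧ g (a⁻¹ * b) ≠ 0})
    fun b _ => (fin_left f g b).image _).subset ?_
  rintro ⟨a, b⟩ hab
  have h2 : f a ≠ 0 := fun h => hab (by simp [h])
  have h3 : g (a⁻¹ * b) ≠ 0 := fun h => hab (by simp [h])
  have h4 : h (b⁻¹ * x) ≠ 0 := fun h => hab (by simp [h])
  rw [mem_iUnion₂]
  exact ⟨b, ⟨⟨a, h2, a⁻¹ * b, h3, by simp⟩, h4⟩, a, ⟨h2, h3⟩, rfl⟩

theorem mul_assoc' (f g h : Ser K G) : f * g * h = f * (g * h) := by
  ext x
  have h0 := fin_supp_pair f g h x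
  rw [mul_apply, mul_apply]
  have h1 : ∀ b, (f * g) b * h (b⁻¹ * x) = ∑ᶠ a, f a * g (a⁻¹ * b) * h (b⁻¹ * x) := by
    intro b
    rw [mul_apply, finsum_mul' _ _ (fin_supp f g b)]
  have h2 : ∀ a, f a * (g * h) (a⁻¹ * x) = ∑ᶠ b, f a * g (a⁻¹ * b) * h (b⁻¹ * x) := by
    intro a
    rw [mul_apply, mul_finsum' _ _ (fin_supp g h _), ← finsum_comp_equiv (Equiv.mulLeft a⁻¹)]
    refine finsum_congr fun b => ?_
    rw [Equiv.coe_mulLeft, mul_assoc, show (a⁻¹ * b)⁻¹ * (a⁻¹ * x) = b⁻¹ * x by group]
  rw [finsum_congr h1, finsum_congr h2]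
  rw [← finsum_curry (fun p : G × G => f p.1 * g (p.1⁻¹ * p.2) * h (p.2⁻¹ * x)) h0]
  have h3 : HasFiniteSupport fun p : G × G => f p.2 * g (p.2⁻¹ * p.1) * h (p.1⁻¹ * x) := by
    refine (h0.image Prod.swap).subset ?_
    rintro ⟨a, b⟩ hab
    exact ⟨(b, a), hab, rfl⟩
  rw [← finsum_curry (fun p : G × G => f p.2 * g (p.2⁻¹ * p.1) * h (p.1⁻¹ * x)) h3]
  rw [← finsum_comp_equiv (Equiv.prodComm G G)]
  rfl

noncomputable instance : Ring (Ser K G) where
  __ := (inferInstance : AddCommGroup (Ser K G))
  mul := (· * ·)
  one := 1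
  mul_assoc := mul_assoc'
  one_mul := fun f => by
    ext x
    rw [one_def, single_mul_apply]
    simp
  mul_one := fun f => by
    ext x
    rw [one_def, mul_single_apply]
    simp
  left_distrib := fun f g h => by
    ext x
    rw [add_apply, mul_apply, mul_apply, mul_apply, ← finsum_add_distrib (fin_supp f g x) (fin_supp f h x)]
    exact finsum_congr fun a => by rw [add_apply, mul_add]
  right_distrib := fun f g h => by
    ext x
    rw [add_apply, mul_apply, mul_apply, mul_apply, ← finsum_add_distrib (fin_supp f h x) (fin_supp g h x)]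
    exact finsum_congr fun a => by rw [add_apply, add_mul]
  zero_mul := fun f => by
    ext x
    rw [mul_apply]
    simp
  mul_zero := fun f => by
    ext x
    rw [mul_apply]
    simp

theorem single_mul_single (x y : G) (a b : K) : single x a * single y b = single (x * y) (a * b) := by
  ext z
  rw [single_mul_apply]
  by_cases h : z = x * y
  · subst h
    rw [single_self, show x⁻¹ * (x * y) = y by group, single_self]
  · rw [single_ne h, single_ne, mul_zero]
    intro h1
    apply h
    rw [← h1]
    group

theorem single_add (x : G) (a b : K) : single x (a + b) = single x a + single x b := by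
  ext z
  by_cases h : z = x
  · subst h
    rw [add_apply, single_self, single_self, single_self]
  · rw [add_apply, single_ne h, single_ne h, single_ne h, add_zero]

end Ser

end Pool.Agent.H58.MN
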